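import Pool.Agent.P.MP_271f28_al.Crit

set_option autoImplicit false

open Pool.Agent.P.MP_271f28_al.Gen

namespace Pool.Agent.Results.MP_271f28_al.GroupCriterion

universe u

/-- A finitely generated group `T` has only hopfian extensions of finite Green index exactly when
every surjective endomorphism of `T` that maps a normal subgroup `N` into `N` induces an injective
endomorphism of `T / N`. -/
theorem result (T : Type u) [Group T] [Group.FG T] :
    (∀ (S : Type u) [Semigroup S] (ι : T →ₙ* S), Function.Injective ι →
      (Cls ι.srange).Finite → Hopfian S) ↔
    ∀ φ : T →* T, Function.Surjective φ → ∀ N : Subgroup T, N.Normal → N.map φ ≤ N →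
      N.comap φ ≤ N :=
  Pool.Agent.P.MP_271f28_al.Crit.crit T

end Pool.Agent.Results.MP_271f28_al.GroupCriterion
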