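import Pool.Agent.P.MP_271f28_al.Gen

set_option autoImplicit false

open Pool.Agent.P.MP_271f28_al.Gen

namespace Pool.Agent.Results.MP_271f28_al.RigidFixers

universe u

/-- Let `T` be a hopfian subsemigroup of finite Green index in `S`, with `T` finitely generated
or `S` having finitely many congruences of each finite index. If every relative H-class outside
`T` has a hopfian relative Schützenberger group, or a rigid right fixer, or a rigid left fixer,
then `S` is hopfian. -/
theorem result (S : Type u) [Semigroup S] (T : Subsemigroup S)
    (hfin : (Cls T).Finite)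
    (hgen : (∃ F : Finset S, Subsemigroup.closure (↑F : Set S) = T) ∨
      ∀ n : ℕ, 0 < n → {c : Con S | Nat.card c.Quotient = n}.Finite)
    (hT : Hopfian T)
    (hH : ∀ H ∈ Cls T, Hopfian (Gam T H) ∨ Rigid T (FixR T H) ∨ Rigid T (FixL T H)) :
    Hopfian S :=
  main T hfin hgen hT hH

end Pool.Agent.Results.MP_271f28_al.RigidFixers
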